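import Pool.Agent.H66.AV.TF
import Pool.Agent.H78.XQ.Targets

/-!
# Row FI6 (MP_0f8dca_lc): all requirements at once, by compactness
-/

set_option autoImplicit false

namespace Pool.Agent.H18.AV

open Finset Pool.Agent.H6.NB Pool.Agent.H70.OQ Pool.Agent.H70.EH Pool.Agent.H70.EI
open Pool.Agent.H78.XQ Pool.Agent.H66.IQ Pool.Agent.H66.AV
open Pool.Agent.H66.IP (Local ins sp dm Good scl)

/-- the requirement with the number `i` -/
private def fi6D (i : ℕ) : Option ((ℕ × List Bool) ⊕ (ℕ × ℕ)) := Encodable.decode i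

private theorem fi6D_encode (z : (ℕ × List Bool) ⊕ (ℕ × ℕ)) :
    fi6D (Encodable.encode z) = some z := Encodable.encodek z

/-- the conditions -/
private def fi6C (V : ℕ → Local) (G : ℕ → (k : ℕ) × (List Bool → Prot k)) (N : ℕ → ℕ) (i : ℕ)
    (O : List Bool → Bool) : Prop :=
  (∀ p, fi6D i = some (Sum.inl p) → Good V p O) ∧
  ∀ j n, fi6D i = some (Sum.inr (j, n)) → N j ≤ n →
    (rights (G j).2 O n : ℝ) ≤ (1 / 2 + (1 / 2) ^ (n / 64)) * 2 ^ n

theorem pf_FI6 (hFMX : T_FMX) (hCPT : T_CPT) (hGDL : T_GDL) (hRLO : T_RLO)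
    (hSPF : Pool.Agent.H66.IP.T_SPF) (hEXA : Pool.Agent.H78.XQ.T_EXA) : T_FI6 := by
  intro V G hG
  obtain ⟨hins, -, -, -, -, -⟩ := hSPF V
  obtain ⟨N, hN⟩ := hFMX V G hG
  have hloc : ∀ i, ∃ L, ∀ O O' : List Bool → Bool, (∀ w, w.length ≤ L → O w = O' w) →
      fi6C V G N i O → fi6C V G N i O' := by
    intro i
    rcases h : fi6D i with _ | (p | ⟨j, n⟩)
    · refine ⟨0, fun O O' _ _ => ⟨fun p hp => ?_, fun j n hj => ?_⟩⟩
      · rw [h] at hp; exact absurd hp (by simp)
      · rw [h] at hj; exact absurd hj (by simp)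
    · obtain ⟨L, hL⟩ := hGDL V p
      refine ⟨L, fun O O' hO hC => ⟨fun p' hp => ?_, fun j n hj => ?_⟩⟩
      · have hp' := hp
        rw [h] at hp'
        have h1 : p = p' := by simpa using hp'
        rw [← h1]
        exact hL O O' hO (hC.1 p h)
      · rw [h] at hj; exact absurd hj (by simp)
    · obtain ⟨L, hL⟩ := hRLO (G j).1 (G j).2 n
      refine ⟨L, fun O O' hO hC => ⟨fun p hp => ?_, fun j' n' hj hn => ?_⟩⟩
      · rw [h] at hp; exact absurd hp (by simp)
      · have hj' := hj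
        rw [h] at hj'
        have h1 : j = j' ∧ n = n' := by simpa using hj'
        obtain ⟨rfl, rfl⟩ := h1
        rw [← hL O O' hO]
        exact hC.2 j n h hn
  have hfin : ∀ M, ∃ O, ∀ i < M, fi6C V G N i O := by
    intro M
    obtain ⟨M', hM'⟩ : ∃ M' : ℕ, ∀ i < M, (∀ p, fi6D i = some (Sum.inl p) →
        (sp V p).length ≤ M') ∧ ∀ j n, fi6D i = some (Sum.inr (j, n)) → j < M' ∧ n < M' := by
      induction M with
      | zero => exact ⟨0, fun i hi => absurd hi (Nat.not_lt_zero i)⟩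
      | succ m ih =>
        obtain ⟨M₁, h₁⟩ := ih
        obtain ⟨M₂, h₂⟩ : ∃ M₂ : ℕ, (∀ p, fi6D m = some (Sum.inl p) →
            (sp V p).length ≤ M₂) ∧ ∀ j n, fi6D m = some (Sum.inr (j, n)) →
              j < M₂ ∧ n < M₂ := by
          rcases h : fi6D m with _ | (p | ⟨j, n⟩)
          · exact ⟨0, fun p hp => absurd hp (by simp), fun j n hj => absurd hj (by simp)⟩
          · refine ⟨(sp V p).length, fun p' hp => ?_, fun j n hj => absurd hj (by simp)⟩
            have h1 : p = p' := by simpa using hp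
            rw [h1]
          · refine ⟨max j n + 1, fun p hp => absurd hp (by simp), fun j' n' hj => ?_⟩
            have h1 : j = j' ∧ n = n' := by simpa using hj
            obtain ⟨rfl, rfl⟩ := h1
            constructor <;> omega
        refine ⟨max M₁ M₂, fun i hi => ?_⟩
        rcases Nat.lt_succ_iff_lt_or_eq.1 hi with hlt | rfl
        · refine ⟨fun p hp => ((h₁ i hlt).1 p hp).trans (le_max_left _ _), fun j n hj => ?_⟩
          have := (h₁ i hlt).2 j n hj
          omega
        · refine ⟨fun p hp => (h₂.1 p hp).trans (le_max_right _ _), fun j n hj => ?_⟩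
          have := h₂.2 j n hj
          omega
    obtain ⟨O, hO1, hO2⟩ := hN M'
    refine ⟨O, fun i hi => ⟨fun p hp => hO1 p ((hM' i hi).1 p hp), fun j n hj hn => ?_⟩⟩
    obtain ⟨h3, h4⟩ := (hM' i hi).2 j n hj
    exact hO2 j h3 n h4 hn
  obtain ⟨O, hO⟩ := hCPT (fi6C V G N) hloc hfin
  refine ⟨O, ?_, ?_⟩
  · intro i x
    have hg : Good V (i, x) O := (hO (Encodable.encode (Sum.inl (i, x) :
      (ℕ × List Bool) ⊕ (ℕ × ℕ)))).1 (i, x) (fi6D_encode _)
    unfold Good OkB at hg
    have hfit := hg.2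
    have he := hEXA O (sp V (i, x)) _ hfit
    rw [hins (i, x)] at he
    change (exact (ins (V i).c i x)).prob O = _ at he
    constructor
    · intro hacc
      rw [he]
      simp [hacc]
    · intro hacc
      rw [he]
      simp [hacc]
  · intro j
    refine ⟨N j, fun n hn => ?_⟩
    exact (hO (Encodable.encode (Sum.inr (j, n) : (ℕ × List Bool) ⊕ (ℕ × ℕ)))).2 j n
      (fi6D_encode _) hn

end Pool.Agent.H18.AV
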